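import Pool.Agent.H84.SF.Geo2
import Pool.Agent.H62.HIL.Dim2

/-! Row HIE of board sfc_modules: homogeneous integral equations. -/

set_option autoImplicit false

namespace Pool.Agent.H96.SF

open MvPolynomial SC
open Pool.Agent.H27.LV (ge deg poleOrder canDeg)
open Pool.Agent.H92.OD (HS cf sg uu Lat geO IsO DF DD)
open Pool.Agent.H84.SM (y1 y2 Near cr dt dp)
open Pool.Agent.H3.SF (Itg Bb BB Hm eu grd hes Sfc Crd Cnn Crf Prm nv)
open Pool.Agent.H84.SF

theorem pf_HIE : T_HIE := by
  intro k F _ _ _ _ u dd hdd a e ha hHm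
  have hF : CharZero F := charZero_of_injective_algebraMap (algebraMap k F).injective
  have hE : ∀ i, Hm k (eu u dd) 1 (u i) := by
    intro i
    unfold Hm eu
    rw [Int.cast_one, one_mul, Fin.sum_univ_three]
    simp only [Derivation.add_apply, Derivation.smul_apply, hdd, smul_eq_mul]
    fin_cases i <;> simp
  obtain ⟨n, c, hc, hrel⟩ := Pool.Agent.H62.HIL.hom_relation (κ := k) (v := u) hE
    (t := (e : ℤ)) (a := a) ⟨ha, hHm⟩
  refine ⟨n, fun i => c i, ?_, ?_⟩
  · intro i
    have h1 := (hc i i.2).1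
    have h2 : ((n : ℤ) - (i : ℕ)) * e = (((n - (i : ℕ)) * e : ℕ) : ℤ) := by
      have h3 : (i : ℕ) ≤ n := i.2.le
      push_cast [Nat.cast_sub h3]
      ring
    have h4 := h1 (by rw [h2]; exact Int.natCast_nonneg _)
    rw [h2, Int.toNat_natCast] at h4
    exact h4
  · rw [← hrel, Finset.sum_range]

end Pool.Agent.H96.SF
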